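import Pool.Agent.helper44.EX.Spec

/-!
# EX module NZR: for almost every point no iterate is zero
-/

set_option autoImplicit false

open Complex Metric Set Filter Topology MeasureTheory Pool.Agent.helper98.ILF

noncomputable section

namespace EX

/-- the preimage of a finite set under `z ^ n + c` is finite. -/
theorem NZR_pre (n : ℕ) (c : ℂ) (hn : 1 ≤ n) (S : Set ℂ) (hS : S.Finite) :
    {z : ℂ | ff n c z ∈ S}.Finite := by
  have hsub : {z : ℂ | ff n c z ∈ S} ⊆ ⋃ s ∈ S, {z : ℂ | z ^ n = s - c} := by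
    intro z hz
    simp only [mem_iUnion]
    refine ⟨ff n c z, hz, ?_⟩
    simp [ff]
  refine Set.Finite.subset (hS.biUnion fun s _ => ?_) hsub
  have h1 : {z : ℂ | z ^ n = s - c} ⊆ ((Polynomial.nthRoots n (s - c)).toFinset : Set ℂ) := by
    intro z hz
    simp only [Finset.mem_coe, Multiset.mem_toFinset]
    rw [Polynomial.mem_nthRoots (by omega)]
    exact hz
  exact Set.Finite.subset (Finset.finite_toSet _) h1

theorem NZR_fin (n : ℕ) (c : ℂ) (hn : 1 ≤ n) (k : ℕ) : {x : ℂ | (ff n c)^[k] x = 0}.Finite := by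
  induction k with
  | zero => simp
  | succ k ih =>
    have h : {x : ℂ | (ff n c)^[k + 1] x = 0} = {x : ℂ | ff n c x ∈ {y : ℂ | (ff n c)^[k] y = 0}} := by
      ext x
      simp [Function.iterate_succ_apply]
    rw [h]
    exact NZR_pre n c hn _ ih

theorem NZR : NZR_stmt := by
  intro n c hn
  rw [ae_all_iff]
  intro k
  have h := (NZR_fin n c hn k).measure_zero (volume : Measure ℂ)
  rw [ae_iff]
  have h2 : {a : ℂ | ¬ (ff n c)^[k] a ≠ 0} = {x : ℂ | (ff n c)^[k] x = 0} := by
    ext x
    simp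
  rw [h2]
  exact h

end EX
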